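import Mathlib
import Pool.Agent.Helper69.QueensA2
import Pool.Agent.Helper95.QMain

/-!
Domination number of the queens graph: `n ≤ 2 γ(Q_n)` for every `n` except `3` and `11`.
-/

set_option autoImplicit false

namespace Pool.Agent.Results.MP_27266b_co.HalfBoardBound

open Finset Pool.Agent.Helper69.Queens

/-- The queens graph `Q_n` on the squares of the `n × n` board: distinct squares are adjacent when
they share a row, a column or a diagonal in either direction. -/
def queensGraph (n : ℕ) : SimpleGraph (Fin n × Fin n) where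
  Adj p q := p ≠ q ∧ (p.1 = q.1 ∨ p.2 = q.2 ∨
    ((p.1.val : ℤ) - p.2.val = (q.1.val : ℤ) - q.2.val) ∨
    ((p.1.val : ℤ) + p.2.val = (q.1.val : ℤ) + q.2.val))
  symm := ⟨fun p q h => ⟨h.1.symm, by
    rcases h.2 with h | h | h | h
    · exact Or.inl h.symm
    · exact Or.inr (Or.inl h.symm)
    · exact Or.inr (Or.inr (Or.inl h.symm))
    · exact Or.inr (Or.inr (Or.inr h.symm))⟩⟩
  loopless := ⟨fun p h => h.1 rfl⟩

/-- `S` dominates `G`: every vertex is in `S` or adjacent to a vertex of `S`. -/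
def Dominates {V : Type*} (G : SimpleGraph V) (S : Finset V) : Prop :=
  ∀ v, v ∈ S ∨ ∃ s ∈ S, G.Adj v s

/-- The domination number of a graph: the least size of a finite dominating set. -/
noncomputable def dominationNumber {V : Type*} (G : SimpleGraph V) : ℕ :=
  sInf {k | ∃ S : Finset V, S.card = k ∧ Dominates G S}

/-- a set of queens with the same moves covers the board `[0,m]²` -/
def Cov (m : ℤ) (D : Finset (ℤ × ℤ)) : Prop :=
  ∀ x y : ℤ, 0 ≤ x → x ≤ m → 0 ≤ y → y ≤ m →
      ∃ q ∈ D, q.1 = x ∨ q.2 = y ∨ q.2 - q.1 = y - x ∨ q.1 + q.2 = x + y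

/-- the exact system of part A, with its translation -/
theorem exact_shift (g : ℕ) (D : Finset (ℤ × ℤ)) (hD : D.card = g)
    (hb : ∀ q ∈ D, 0 ≤ q.1 ∧ q.1 ≤ 2 * g ∧ 0 ≤ q.2 ∧ q.2 ≤ 2 * g)
    (hdom : Cov (2 * g) D) :
    ∃ (δ A C : ℤ), Exact g δ A C (D.image (fun q => (q.1 - A, q.2 - C))) := by
  classical
  have hg : 1 ≤ g := by
    obtain ⟨q, hq, -⟩ := hdom 0 0 le_rfl (by positivity) le_rfl (by positivity)
    rw [← hD]
    exact Finset.card_pos.2 ⟨q, hq⟩
  obtain ⟨A, B, A0, B2, AB, eA, eB, oAB⟩ := extremes g D hD (fun q => q.1)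
  obtain ⟨C, E, C0, E2, CE, eC, eE, oCE⟩ := extremes g D hD (fun q => q.2)
  set D' := D.image (fun q => (q.1 - A, q.2 - C)) with hD'
  have hm : ∀ q, q ∈ D' ↔ (q.1 + A, q.2 + C) ∈ D := by
    intro q
    rw [hD', Finset.mem_image]
    constructor
    · rintro ⟨p, hp, rfl⟩
      simpa using hp
    · intro h
      exact ⟨_, h, by simp⟩
  have hcard : D'.card = g := by
    rw [hD', Finset.card_image_of_injective, hD]
    intro p q h
    simp only [Prod.mk.injEq] at h
    exact Prod.ext (by omega) (by omega)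
  have hpre : Pre g (B - A) (E - C) A C D' := by
    refine ⟨hg, hcard, A0, C0, by omega, by omega, by omega, by omega, ?_, ?_, ?_, ?_, ?_, ?_,
      ?_, ?_, ?_⟩
    · intro q hq
      have := hb _ ((hm q).1 hq)
      simp only at this
      omega
    · intro q hq
      have := hb _ ((hm q).1 hq)
      simp only at this
      omega
    · intro x h1 h2 h3
      obtain ⟨q, hq, e⟩ := oAB (x + A) (by omega) (by omega) (by omega)
      exact ⟨(q.1 - A, q.2 - C), by rw [hm]; simpa using hq, by simp only; omega⟩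
    · intro x h1 h2 h3
      obtain ⟨q, hq, e⟩ := oCE (x + C) (by omega) (by omega) (by omega)
      exact ⟨(q.1 - A, q.2 - C), by rw [hm]; simpa using hq, by simp only; omega⟩
    · intro q hq
      have := eA _ ((hm q).1 hq)
      simp only at this
      omega
    · intro q hq
      have := eB _ ((hm q).1 hq)
      simp only at this
      omega
    · intro q hq
      have := eC _ ((hm q).1 hq)
      simp only at this
      omega
    · intro q hq
      have := eE _ ((hm q).1 hq)
      simp only at this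
      omega
    · intro x y h1 h2 h3 h4
      obtain ⟨q, hq, e⟩ := hdom (x + A) (y + C) (by omega) (by omega) (by omega) (by omega)
      have hq' : (q.1 - A, q.2 - C) ∈ D' := by rw [hm]; simpa using hq
      rcases e with e | e | e | e
      · exact Or.inl ⟨_, hq', by simp only; omega⟩
      · exact Or.inr (Or.inl ⟨_, hq', by simp only; omega⟩)
      · exact Or.inr (Or.inr (Or.inl ⟨_, hq', by simp only; omega⟩))
      · exact Or.inr (Or.inr (Or.inr ⟨_, hq', by simp only; omega⟩))
  exact ⟨B - A, A, C, hpre.exact⟩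

/-- consequences for a covering set of `g` queens on the board of side `2g+1` -/
theorem facts (g : ℕ) (D : Finset (ℤ × ℤ)) (hD : D.card = g)
    (hb : ∀ q ∈ D, 0 ≤ q.1 ∧ q.1 ≤ 2 * g ∧ 0 ≤ q.2 ∧ q.2 ≤ 2 * g)
    (hdom : Cov (2 * g) D) :
    (g = 1 ∨ g = 5) ∧ (∀ p ∈ D, ∀ q ∈ D, p.1 = q.1 → p = q) ∧
      ((2 * (g : ℤ), 2 * (g : ℤ)) ∉ D) := by
  classical
  obtain ⟨δ, A, C, h⟩ := exact_shift g D hD hb hdom
  refine ⟨Helper95.Queens.size_of_qdata h.toQData, ?_, ?_⟩
  · intro p hp q hq e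
    have := h.injx _ (Finset.mem_image_of_mem (fun q : ℤ × ℤ => (q.1 - A, q.2 - C)) hp)
      _ (Finset.mem_image_of_mem (fun q : ℤ × ℤ => (q.1 - A, q.2 - C)) hq) (by simp only [e])
    simp only [Prod.mk.injEq] at this
    exact Prod.ext (by omega) (by omega)
  · intro hmem
    have h1 := h.sr _ (Finset.mem_image_of_mem (fun q : ℤ × ℤ => (q.1 - A, q.2 - C)) hmem)
    have h2 := h.aδ
    have h3 := h.cδ
    simp only at h1
    omega

/-- odd boards: the bound `(n-1)/2` and its equality case -/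
theorem odd_board (g : ℕ) (D : Finset (ℤ × ℤ))
    (hb : ∀ q ∈ D, 0 ≤ q.1 ∧ q.1 ≤ 2 * g ∧ 0 ≤ q.2 ∧ q.2 ≤ 2 * g)
    (hdom : Cov (2 * g) D) : g ≤ D.card := by
  classical
  by_contra hlt
  push Not at hlt
  obtain ⟨q0, hq0, -⟩ := hdom 0 0 le_rfl (by positivity) le_rfl (by positivity)
  have hq0b := hb q0 hq0
  -- a free square in the column of `q0`
  obtain ⟨y, hy0, hy1, hyD⟩ : ∃ y : ℤ, 0 ≤ y ∧ y ≤ 2 * g ∧ (q0.1, y) ∉ D := by
    by_contra hcon
    push Not at hcon
    have hsub : (Finset.Icc (0 : ℤ) (2 * g)).image (fun y => (q0.1, y)) ⊆ D := by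
      intro q hq
      obtain ⟨y, hy, rfl⟩ := Finset.mem_image.1 hq
      rw [Finset.mem_Icc] at hy
      exact hcon y hy.1 hy.2
    have h1 := Finset.card_le_card hsub
    rw [Finset.card_image_of_injective _ (by
      intro a b h
      simpa using h), Int.card_Icc] at h1
    omega
  set U : Finset (ℤ × ℤ) := Finset.Icc (0 : ℤ) (2 * g) ×ˢ Finset.Icc (0 : ℤ) (2 * g) with hU
  have hUm : ∀ q, q ∈ U ↔ 0 ≤ q.1 ∧ q.1 ≤ 2 * g ∧ 0 ≤ q.2 ∧ q.2 ≤ 2 * g := by
    intro q
    rw [hU, Finset.mem_product, Finset.mem_Icc, Finset.mem_Icc]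
    tauto
  have hDU : insert (q0.1, y) D ⊆ U := by
    intro q hq
    rw [Finset.mem_insert] at hq
    rcases hq with rfl | hq
    · rw [hUm]; exact ⟨hq0b.1, hq0b.2.1, hy0, hy1⟩
    · rw [hUm]; exact hb q hq
  have hc : (insert (q0.1, y) D).card ≤ g := by
    rw [Finset.card_insert_of_notMem hyD]; omega
  have hUc : g ≤ U.card := by
    rw [hU, Finset.card_product, Int.card_Icc]
    have : (2 * (g : ℤ) + 1 - 0).toNat = 2 * g + 1 := by omega
    rw [this]
    nlinarith
  obtain ⟨R, hR1, hR2, hR3⟩ := Finset.exists_subsuperset_card_eq hDU hc hUc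
  have hDR : D ⊆ R := (Finset.subset_insert _ _).trans hR1
  have hf := facts g R hR3 (fun q hq => (hUm q).1 (hR2 hq)) (by
    intro x y h1 h2 h3 h4
    obtain ⟨q, hq, e⟩ := hdom x y h1 h2 h3 h4
    exact ⟨q, hDR hq, e⟩)
  have := hf.2.1 (q0.1, y) (hR1 (Finset.mem_insert_self _ _)) q0 (hDR hq0) rfl
  exact hyD (this ▸ hq0)

/-- all boards -/
theorem all_boards (n : ℕ) (hn3 : n ≠ 3) (hn11 : n ≠ 11) (D : Finset (ℤ × ℤ))
    (hb : ∀ q ∈ D, 0 ≤ q.1 ∧ q.1 ≤ (n : ℤ) - 1 ∧ 0 ≤ q.2 ∧ q.2 ≤ (n : ℤ) - 1)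
    (hdom : Cov ((n : ℤ) - 1) D) : n ≤ 2 * D.card := by
  classical
  rcases Nat.even_or_odd' n with ⟨k, hk | hk⟩
  · -- even board
    rcases Nat.eq_zero_or_pos k with rfl | hkpos
    · omega
    have hnew : ((n : ℤ), (n : ℤ)) ∉ D := fun h => by
      have := hb _ h
      simp only at this
      omega
    have hcard : (insert ((n : ℤ), (n : ℤ)) D).card = D.card + 1 :=
      Finset.card_insert_of_notMem hnew
    have hb' : ∀ q ∈ insert ((n : ℤ), (n : ℤ)) D,
        0 ≤ q.1 ∧ q.1 ≤ 2 * (k : ℤ) ∧ 0 ≤ q.2 ∧ q.2 ≤ 2 * (k : ℤ) := by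
      intro q hq
      rw [Finset.mem_insert] at hq
      rcases hq with rfl | hq
      · simp only; omega
      · have := hb q hq
        omega
    have hdom' : Cov (2 * (k : ℤ)) (insert ((n : ℤ), (n : ℤ)) D) := by
      intro x y h1 h2 h3 h4
      by_cases hx : x = n
      · exact ⟨_, Finset.mem_insert_self _ _, Or.inl (by simp only [hx])⟩
      by_cases hy : y = n
      · exact ⟨_, Finset.mem_insert_self _ _, Or.inr (Or.inl (by simp only [hy]))⟩
      obtain ⟨q, hq, e⟩ := hdom x y h1 (by omega) h3 (by omega)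
      exact ⟨q, Finset.mem_insert_of_mem hq, e⟩
    have hle := odd_board k _ hb' hdom'
    rw [hcard] at hle
    by_contra hcon
    have heq : (insert ((n : ℤ), (n : ℤ)) D).card = k := by rw [hcard]; omega
    have := (facts k _ heq hb' hdom').2.2
    apply this
    have e : ((2 * (k : ℤ), 2 * (k : ℤ)) : ℤ × ℤ) = ((n : ℤ), (n : ℤ)) := by
      rw [hk]; push_cast; rfl
    rw [e]
    exact Finset.mem_insert_self _ _
  · -- odd board
    have e : ((n : ℤ) - 1) = 2 * (k : ℤ) := by rw [hk]; push_cast; ring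
    rw [e] at hb hdom
    have hle := odd_board k D hb hdom
    by_contra hcon
    have heq : D.card = k := by omega
    have := (facts k D heq hb hdom).1
    omega

/-- from the graph to the integer board -/
theorem to_int (n : ℕ) (S : Finset (Fin n × Fin n)) (h : Dominates (queensGraph n) S) :
    ∃ D : Finset (ℤ × ℤ), D.card = S.card ∧
      (∀ q ∈ D, 0 ≤ q.1 ∧ q.1 ≤ (n : ℤ) - 1 ∧ 0 ≤ q.2 ∧ q.2 ≤ (n : ℤ) - 1) ∧
      Cov ((n : ℤ) - 1) D := by
  classical
  set φ : Fin n × Fin n → ℤ × ℤ := fun q => ((q.1.val : ℤ), (q.2.val : ℤ)) with hφ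
  have hφi : Function.Injective φ := by
    intro p q h
    simp only [hφ, Prod.mk.injEq] at h
    exact Prod.ext (Fin.ext (by omega)) (Fin.ext (by omega))
  refine ⟨S.image φ, Finset.card_image_of_injective _ hφi, ?_, ?_⟩
  · intro q hq
    obtain ⟨p, _, rfl⟩ := Finset.mem_image.1 hq
    have h1 := p.1.isLt
    have h2 := p.2.isLt
    simp only [hφ]
    omega
  · intro x y hx0 hx1 hy0 hy1
    have hx : x.toNat < n := by omega
    have hy : y.toNat < n := by omega
    rcases h (⟨x.toNat, hx⟩, ⟨y.toNat, hy⟩) with h1 | ⟨q, hq, -, e⟩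
    · refine ⟨_, Finset.mem_image_of_mem φ h1, Or.inl ?_⟩
      simp only [hφ]
      omega
    · refine ⟨φ q, Finset.mem_image_of_mem _ hq, ?_⟩
      simp only [hφ]
      simp only [Fin.ext_iff] at e
      omega

/-- the bound for the graph -/
theorem bound (n : ℕ) (h3 : n ≠ 3) (h11 : n ≠ 11) (S : Finset (Fin n × Fin n))
    (h : Dominates (queensGraph n) S) : n ≤ 2 * S.card := by
  obtain ⟨D, hc, hb, hd⟩ := to_int n S h
  rw [← hc]
  exact all_boards n h3 h11 D hb hd

/-- the general bound for an odd board -/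
theorem bound_odd (g : ℕ) (S : Finset (Fin (2 * g + 1) × Fin (2 * g + 1)))
    (h : Dominates (queensGraph (2 * g + 1)) S) : g ≤ S.card := by
  obtain ⟨D, hc, hb, hd⟩ := to_int _ S h
  have e : (((2 * g + 1 : ℕ) : ℤ) - 1) = 2 * (g : ℤ) := by push_cast; ring
  rw [e] at hb hd
  rw [← hc]
  exact odd_board g D hb hd

theorem dom3 : Dominates (queensGraph 3) {(1, 1)} := by
  unfold Dominates queensGraph
  decide

theorem dom11 : Dominates (queensGraph 11) {(5, 5), (7, 9), (3, 1), (9, 3), (1, 7)} := by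
  unfold Dominates queensGraph
  decide +kernel

theorem le_dom {V : Type*} (G : SimpleGraph V) (k : ℕ) (hne : ∃ S : Finset V, Dominates G S)
    (h : ∀ S : Finset V, Dominates G S → k ≤ S.card) : k ≤ dominationNumber G := by
  unfold dominationNumber
  apply le_csInf
  · obtain ⟨S, hS⟩ := hne
    exact ⟨S.card, S, rfl, hS⟩
  · rintro m ⟨S, rfl, hS⟩
    exact h S hS

theorem dom_le {V : Type*} (G : SimpleGraph V) (S : Finset V) (h : Dominates G S) :
    dominationNumber G ≤ S.card :=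
  Nat.sInf_le ⟨S, rfl, h⟩

/-- The domination number of the queens graph is at least `n / 2` for every board except those of
side `3` and `11`, where it is `1` and `5`; so `γ(Q_n) = (n-1)/2` holds for these two boards
only. -/
theorem result :
    (∀ n : ℕ, n ≠ 3 → n ≠ 11 → n ≤ 2 * dominationNumber (queensGraph n)) ∧
    (∀ n : ℕ, n ≠ 3 → n ≠ 11 → ∀ S : Finset (Fin n × Fin n), Dominates (queensGraph n) S →
      n ≤ 2 * S.card) ∧
    dominationNumber (queensGraph 3) = 1 ∧ dominationNumber (queensGraph 11) = 5 ∧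
    (∀ n : ℕ, (2 * dominationNumber (queensGraph n) + 1 = n ↔ n = 3 ∨ n = 11)) := by
  have hmain : ∀ n : ℕ, n ≠ 3 → n ≠ 11 → n ≤ 2 * dominationNumber (queensGraph n) := by
    intro n h3 h11
    have := le_dom (queensGraph n) ((n + 1) / 2) ⟨Finset.univ, fun v => Or.inl (Finset.mem_univ _)⟩
      (fun S hS => by have := bound n h3 h11 S hS; omega)
    omega
  have e3 : dominationNumber (queensGraph 3) = 1 :=
    le_antisymm (dom_le _ _ dom3)
      (le_dom _ 1 ⟨_, dom3⟩ (fun S hS => bound_odd 1 S hS))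
  have e11 : dominationNumber (queensGraph 11) = 5 :=
    le_antisymm (dom_le _ _ dom11)
      (le_dom _ 5 ⟨_, dom11⟩ (fun S hS => bound_odd 5 S hS))
  refine ⟨hmain, bound, e3, e11, ?_⟩
  intro n
  constructor
  · intro h
    by_contra hcon
    push Not at hcon
    have := hmain n hcon.1 hcon.2
    omega
  · rintro (rfl | rfl)
    · rw [e3]
    · rw [e11]

end Pool.Agent.Results.MP_27266b_co.HalfBoardBound
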